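import Mathlib
import Pool.Agent.Lib.MP_4eaecc_an.XA3

set_option autoImplicit false

namespace Pool.Agent.Results.MP_4eaecc_an.TwoCylinders

open Matrix MeasureTheory Filter Topology Pool.Agent.TW

/-- Expanding twist tori of all two-cylinder surfaces in `H(2)` equidistribute. -/
theorem result {a b h₁ h₂ : ℝ} (ha : 0 < a) (hb : 0 < b) (k₁ : 0 < h₁) (k₂ : 0 < h₂) (t₁ t₂ : ℝ) :
    ∃ μ : Measure H2, IsProbabilityMeasure μ ∧ (∀ g, μ.map (act g) = μ) ∧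
      (∀ Y, MeasurableSet Y → (∀ g, act g ⁻¹' Y = Y) → μ Y = 0 ∨ μ Y = 1) ∧
      μ.support = closure {x | ∃ (g : SpecialLinearGroup (Fin 2) ℝ) (s : ℝ × ℝ),
        x = act g (surf ha hb k₁ k₂ (t₁ + s.1 * h₁) (t₂ + s.2 * h₂))} ∧
      ∀ ρ : ℝ × ℝ → ℝ, Integrable ρ → (∀ s, 0 ≤ ρ s) → ∫ s, ρ s = 1 →
        ∀ f : H2 → ℝ, Continuous f → (∃ M, ∀ x, |f x| ≤ M) →
          Tendsto (fun t => ∫ s : ℝ × ℝ,
            f (act (geo t) (surf ha hb k₁ k₂ (t₁ + s.1 * h₁) (t₂ + s.2 * h₂))) * ρ s)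
            atTop (𝓝 (∫ x, f x ∂μ)) :=
  G.main ha hb k₁ k₂ t₁ t₂

end Pool.Agent.Results.MP_4eaecc_an.TwoCylinders
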